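import Pool.Agent.H35.FiveX
set_option autoImplicit false
open scoped Classical
namespace Pool.Agent.Results.MP_02a951_nt.ThreeSevenths

/-- The `5x+1` map. -/
def T5 (n : ℤ) : ℤ := if n % 2 = 0 then n / 2 else (5 * n + 1) / 2

/-- The number of integers `n` with `|n| ≤ x` whose forward orbit contains `a`. -/
noncomputable def piA (a : ℤ) (x : ℕ) : ℕ :=
  ((Finset.Icc (-(x : ℤ)) x).filter (fun n => ∃ k, T5^[k] n = a)).card

theorem result (a : ℤ) (ha : 0 < a) (h5 : ¬ (5 : ℤ) ∣ a) :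
    ∃ c : ℝ, 0 < c ∧ ∃ x₀ : ℕ, ∀ x : ℕ, x₀ ≤ x → c * (x : ℝ) ^ ((3 : ℝ) / 7) ≤ piA a x := by
  lift a to ℕ using ha.le
  obtain ⟨c, hc, x₀, h⟩ := H35.FiveX.main T5 (fun _ => rfl) a (by omega)
  refine ⟨c, hc, x₀, fun x hx => (h x hx).trans ?_⟩
  refine Nat.cast_le.mpr (Finset.card_le_card (fun n hn => ?_))
  obtain ⟨h1, h2⟩ := Finset.mem_filter.mp hn
  refine Finset.mem_filter.mpr ⟨?_, h2⟩
  rw [Finset.mem_Icc] at h1 ⊢
  omega

end Pool.Agent.Results.MP_02a951_nt.ThreeSevenths
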